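import Pool.Agent.H82.NET.Stmts

/-! Board net, row CRS (helper49): the curve of one element crosses itself only at its corners. -/

set_option autoImplicit false

namespace Pool.NET

open Classical in
theorem crs_kx (h u : Nd → Prop) (e l : ℤ) (v : Nd) (k : Kd) :
    kx e l (nx h u (v, k)) = match k with
      | Kd.NW => if h (v.1 - 1, v.2) then (v.1 - 1, e) else (v.1, -l)
      | Kd.SE => if h v then (v.1 + 1, -e) else (v.1, l)
      | Kd.R => (v.1, e)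
      | Kd.T => (v.1, -e)
      | Kd.L => (v.1, -e)
      | Kd.B => (v.1, e) := by
  cases k <;> simp only [nx, upV, dnV] <;> (try split_ifs) <;> rfl

open Classical in
theorem crs_ky (h u : Nd → Prop) (e : ℤ) (v : Nd) (k : Kd) :
    ky e (pv h u (v, k)) = match k with
      | Kd.NW => if u v then (v.2 + 1, -e) else (v.2, 2 * e)
      | Kd.SE => if u (v.1, v.2 - 1) then (v.2 - 1, e) else (v.2, -(2 * e))
      | Kd.R => (v.2, -e)
      | Kd.T => (v.2, e)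
      | Kd.L => (v.2, e)
      | Kd.B => (v.2, -e) := by
  cases k <;> simp only [pv, rNE, rSW] <;> (try split_ifs) <;> rfl

/-- Linear form of a comparison. -/
theorem crs_lin (c M : ℤ) (p q : ℤ × ℤ) (hp : -M ≤ p.2 ∧ p.2 ≤ M) (hq : -M ≤ q.2 ∧ q.2 ≤ M)
    (h : ¬ LL q p) : (p.1 - c) * (2 * M + 1) + p.2 ≤ (q.1 - c) * (2 * M + 1) + q.2 := by
  unfold LL at h
  push Not at h
  obtain ⟨h1, h2⟩ := h
  rcases lt_or_eq_of_le h1 with h3 | h3
  · nlinarith [hp.1, hp.2, hq.1, hq.2]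
  · have := h2 h3.symm
    rw [h3]
    omega

theorem crs_bl (c M : ℤ) (p q r : ℤ × ℤ) (hp : -M ≤ p.2 ∧ p.2 ≤ M) (hq : -M ≤ q.2 ∧ q.2 ≤ M)
    (hr : -M ≤ r.2 ∧ r.2 ≤ M) (h : Bt p q r) :
    ((p.1 - c) * (2 * M + 1) + p.2 ≤ (q.1 - c) * (2 * M + 1) + q.2 ∧
      (q.1 - c) * (2 * M + 1) + q.2 ≤ (r.1 - c) * (2 * M + 1) + r.2) ∨
    ((r.1 - c) * (2 * M + 1) + r.2 ≤ (q.1 - c) * (2 * M + 1) + q.2 ∧
      (q.1 - c) * (2 * M + 1) + q.2 ≤ (p.1 - c) * (2 * M + 1) + p.2) := by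
  unfold Bt at h
  rcases h with ⟨h1, h2⟩ | ⟨h1, h2⟩
  · exact Or.inl ⟨crs_lin c M p q hp hq h1, crs_lin c M q r hq hr h2⟩
  · exact Or.inr ⟨crs_lin c M r q hr hq h1, crs_lin c M q p hq hp h2⟩

theorem crs_nx_col (h u : Nd → Prop) (a : Nd × Kd) :
    a.1.1 - 1 ≤ (nx h u a).1.1 ∧ (nx h u a).1.1 ≤ a.1.1 + 1 := by
  obtain ⟨⟨a1, a2⟩, ka⟩ := a
  cases ka <;> simp only [nx, upV, dnV] <;> (try split_ifs) <;> (try dsimp only) <;> omega

theorem crs_pv_row (h u : Nd → Prop) (a : Nd × Kd) :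
    a.1.2 - 1 ≤ (pv h u a).1.2 ∧ (pv h u a).1.2 ≤ a.1.2 + 1 := by
  obtain ⟨⟨a1, a2⟩, ka⟩ := a
  cases ka <;> simp only [pv, rNE, rSW] <;> (try split_ifs) <;> (try dsimp only) <;> omega

theorem crs_bt (p q r : ℤ × ℤ) (hb : Bt p q r) :
    (p.1 ≤ q.1 ∧ q.1 ≤ r.1) ∨ (r.1 ≤ q.1 ∧ q.1 ≤ p.1) := by
  unfold Bt LL at hb
  omega

theorem crs_near (h u : Nd → Prop) (e l : ℤ) (a1 a2 b1 b2 : ℤ) (ka kb : Kd)
    (h1 : Bt (kx e l ((a1, a2), ka)) (kx e l ((b1, b2), kb)) (kx e l (nx h u ((a1, a2), ka))))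
    (h2 : Bt (ky e ((b1, b2), kb)) (ky e ((a1, a2), ka)) (ky e (pv h u ((b1, b2), kb)))) :
    (b1 = a1 - 1 ∨ b1 = a1 ∨ b1 = a1 + 1) ∧ (b2 = a2 - 1 ∨ b2 = a2 ∨ b2 = a2 + 1) := by
  have c1 := crs_bt _ _ _ h1
  have c2 := crs_bt _ _ _ h2
  have d1 := crs_nx_col h u ((a1, a2), ka)
  have d2 := crs_pv_row h u ((b1, b2), kb)
  simp only [kx, ky] at c1 c2
  dsimp only at d1 d2
  constructor <;> omega

theorem crs_ox (e l : ℤ) (he : 0 < e) (hel : e < l) (k : Kd) :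
    -(2 * l) ≤ ox e l k ∧ ox e l k ≤ 2 * l := by
  cases k <;> simp only [ox] <;> omega

theorem crs_oy (e l : ℤ) (he : 0 < e) (hel : e < l) (k : Kd) :
    -(2 * l) ≤ oy e k ∧ oy e k ≤ 2 * l := by
  cases k <;> simp only [oy] <;> omega

theorem CRS_thm : CRS_S := by
  intro N h u e l hN hU he hl a w ha hw h1 h2
  obtain ⟨⟨a1, a2⟩, ka⟩ := a
  obtain ⟨⟨b1, b2⟩, kb⟩ := w
  obtain ⟨e1, e2⟩ := crs_near h u e l a1 a2 b1 b2 ka kb h1 h2
  have B1 := crs_bl a1 (2 * l) _ _ _ (crs_ox e l he hl _) (crs_ox e l he hl _)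
    (crs_ox e l he hl _) h1
  have B2 := crs_bl a2 (2 * l) _ _ _ (crs_oy e l he hl _) (crs_oy e l he hl _)
    (crs_oy e l he hl _) h2
  rw [crs_kx] at B1
  rw [crs_ky] at B2
  clear h1 h2
  simp only [kx, ky] at B1 B2
  cases ka <;> simp only [ox, oy] at B1 B2 <;> (try split_ifs at B1 with f1) <;>
    rcases e1 with rfl | rfl | rfl <;> cases kb <;> simp only [ox, oy] at B1 B2 <;>
    (first
      | (exfalso; omega)
      | ((try split_ifs at B2 with f2) <;> rcases e2 with rfl | rfl | rfl <;>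
          first
            | (exfalso; omega)
            | skip))
  all_goals clear B1 B2 he hl
  all_goals first
    | exact Or.inl rfl
    | simp_all [nx, upV, dnV, OK]

end Pool.NET
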